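import Pool.Agent.Sq4.Fin5

/-!
# The square maximises `σ₁ L` among polygons with four sides

MP_b1ddb4_an, Q2 for `n = 4`.  The plane is `ℂ`; the definitions are in
`Pool/Agent/Sq4/Defs.lean`: `Poly4 Ω A B C D` says that `Ω` is a bounded open set whose boundary is
the simple closed polygonal curve with exactly the edges `[A,B], [B,C], [C,D], [D,A]`;
`sigP k Ω A B C D` is the infimum of `∫_Ω |∇u|² / ∫_{∂Ω} u²` over the functions `u` of class `C^k`
on the plane with boundary integral zero, not identically zero on the boundary; `perim4` is the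
perimeter; `IsSq` says that the four sides are equal and the two diagonals are equal.
-/

set_option autoImplicit false

noncomputable section

namespace Pool.Agent.Results.MP_b1ddb4_an.QuadPerimeter

open MeasureTheory Pool.Agent.Sq4

/-- Let `α` be the unique root of `tan α * tanh α = 1` in `(0, π/2)`.  The maximum of `σ₁ L` over
all polygons with four sides is `8 α tanh α`; it is attained exactly by the squares; and it lies
between `5.5` and `5.51`. -/
theorem result (k : ℕ∞) (hk : 1 ≤ k) :
    ∃ α : ℝ, (0 < α ∧ α < Real.pi / 2 ∧ Real.tan α * Real.tanh α = 1) ∧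
      (∀ β : ℝ, 0 < β → β < Real.pi / 2 → Real.tan β * Real.tanh β = 1 → β = α) ∧
      IsGreatest {x : ℝ | ∃ (Ω : Set ℂ) (A B C D : ℂ), Poly4 Ω A B C D ∧
        x = sigP k Ω A B C D * perim4 A B C D} (8 * α * Real.tanh α) ∧
      (∀ (Ω : Set ℂ) (A B C D : ℂ), Poly4 Ω A B C D →
        (sigP k Ω A B C D * perim4 A B C D = 8 * α * Real.tanh α ↔ IsSq A B C D)) ∧
      5.5 < 8 * α * Real.tanh α ∧ 8 * α * Real.tanh α < 5.51 := by
  refine ⟨al, ⟨al_pos, al_tan.1, al_tan.2⟩, fun β h0 h1 h => al_unique h0 h1 h, ⟨?_, ?_⟩, ?_,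
    mu_gt, mu_lt⟩
  · exact ⟨_, _, _, _, _, poly4_unit, (((poly_main hk poly4_unit).2.1).2 isSq_unit).symm⟩
  · rintro x ⟨Ω, A, B, C, D, h, rfl⟩
    exact (poly_main hk h).1
  · intro Ω A B C D h
    exact (poly_main hk h).2.1

end Pool.Agent.Results.MP_b1ddb4_an.QuadPerimeter
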