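import Pool.Agent.NGN.Final
import Pool.Agent.NGN.Small

/-!
# The regular `n`-gon maximises `σ₁ |Ω|^{1/2}` among all polygons with `n` sides

MP_b1ddb4_an, Q1 for every `n ≥ 3`.  The plane is `ℂ`; the definitions are in
`Pool/Agent/NGN/Defs.lean`: `PolyN Ω P` (`P : ZMod n → ℂ`) says that `Ω` is a bounded open set
whose boundary is the simple closed polygonal curve with exactly the `n` edges
`[P i, P (i + 1)]`; `sigN k Ω P` is the infimum of `∫_Ω |∇u|² / ∫_{∂Ω} u²` over the functions `u`
of class `C^k` on the plane with boundary integral zero, not identically zero on the boundary;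
`regO n` is the regular `n`-gon with centre `0` and inradius `1` and `regP n` are its vertices.
`IsReg P` (`Pool/Agent/NGN/Small.lean`): the shift of the indices preserves all distances of the
vertices.
-/

set_option autoImplicit false

noncomputable section

namespace Pool.Agent.Results.MP_b1ddb4_an.RegularMaximal

open MeasureTheory Pool.Agent.NGN

/-- For every `n ≥ 3` the maximum of `σ₁ |Ω|^{1/2}` over all polygons with `n` sides (not assumed
convex) is attained by the regular `n`-gon; for `n ≥ 5` it lies between `(1 - epsN n) * BB n` and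
`BB n = √(n tan (π/n)) / (1 + tan² (π/n) / 3)`; for `n = 3` it lies between `0.835` and `0.852`,
for `n = 4` it is `2 α tanh α`, where `tan α tanh α = 1`, `0 < α < π / 2`; for `n = 3, 4` only the
equilateral triangles and the squares attain it. -/
theorem result :
    (∀ (n : ℕ) [NeZero n], 3 ≤ n → ∀ k : ℕ∞, 1 ≤ k →
      PolyN (regO n) (regP n) ∧ volume.real (regO n) = n * Real.tan (Real.pi / n) ∧
      IsGreatest {x : ℝ | ∃ (Ω : Set ℂ) (P : ZMod n → ℂ), PolyN Ω P ∧
          x = sigN k Ω P * Real.sqrt (volume.real Ω)}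
        (sigN k (regO n) (regP n) * Real.sqrt (volume.real (regO n))) ∧
      (5 ≤ n → (1 - epsN n) * BB n ≤
          sigN k (regO n) (regP n) * Real.sqrt (volume.real (regO n)) ∧
        sigN k (regO n) (regP n) * Real.sqrt (volume.real (regO n)) ≤ BB n)) ∧
    (∀ k : ℕ∞, 1 ≤ k →
      (0.835 < sigN k (regO 3) (regP 3) * Real.sqrt (volume.real (regO 3)) ∧
        sigN k (regO 3) (regP 3) * Real.sqrt (volume.real (regO 3)) < 0.852) ∧
      ∀ (Ω : Set ℂ) (P : ZMod 3 → ℂ), PolyN Ω P →
        (sigN k Ω P * Real.sqrt (volume.real Ω) =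
          sigN k (regO 3) (regP 3) * Real.sqrt (volume.real (regO 3)) ↔ IsReg P)) ∧
    (∀ k : ℕ∞, 1 ≤ k →
      (∃ α : ℝ, 0 < α ∧ α < Real.pi / 2 ∧ Real.tan α * Real.tanh α = 1 ∧
        sigN k (regO 4) (regP 4) * Real.sqrt (volume.real (regO 4)) = 2 * α * Real.tanh α) ∧
      ∀ (Ω : Set ℂ) (P : ZMod 4 → ℂ), PolyN Ω P →
        (sigN k Ω P * Real.sqrt (volume.real Ω) =
          sigN k (regO 4) (regP 4) * Real.sqrt (volume.real (regO 4)) ↔ IsReg P)) := by
  refine ⟨fun n _ hn k hk => ⟨B_poly hn, B_vol hn, ⟨⟨regO n, regP n, B_poly hn, rfl⟩, ?_⟩,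
    fun h5 => bounds h5 hk⟩, fun k hk => ⟨three_value hk, fun Ω P h => three_uniq hk h⟩,
    fun k hk => ⟨four_value hk, fun Ω P h => four_uniq hk h⟩⟩
  rintro x ⟨Ω, P, h, rfl⟩
  exact main_all hn hk h

end Pool.Agent.Results.MP_b1ddb4_an.RegularMaximal
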