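import Pool.Agent.Stk.Fin

/-!
# The equilateral triangle maximises `σ₁ L` among triangles

MP_b1ddb4_an, Q2 for `n = 3`.  The plane is `ℂ`; the definitions are in
`Pool/Agent/Stk/Defs.lean`: `sigma1 k P Q R` is the infimum of `∫_Ω |∇u|² / ∫_{∂Ω} u²` over the
functions `u` of class `C^k` on the plane with boundary integral zero, not identically zero on the
boundary, where `Ω` is the open triangle `P Q R`; `perim P Q R` is the perimeter.
-/

set_option autoImplicit false

noncomputable section

namespace Pool.Agent.Results.MP_b1ddb4_an.TrianglePerimeter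

open MeasureTheory Pool.Agent.Stk

/-- A nondegenerate equilateral triangle `A B C` realises the maximum of `σ₁ L` over all
nondegenerate triangles, the equilateral triangles are the only maximisers, and the maximal value
lies between `3.81` and `3.883`. -/
theorem result (k : WithTop ℕ∞) (hk : 1 ≤ k) (A B C : ℂ) (hne : A ≠ B)
    (h1 : dist A B = dist B C) (h2 : dist B C = dist C A) :
    IsGreatest {x : ℝ | ∃ P Q R : ℂ, AffineIndependent ℝ ![P, Q, R] ∧
        x = sigma1 k P Q R * perim P Q R} (sigma1 k A B C * perim A B C) ∧
    (∀ P Q R : ℂ, AffineIndependent ℝ ![P, Q, R] →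
      (sigma1 k P Q R * perim P Q R = sigma1 k A B C * perim A B C ↔
        dist P Q = dist Q R ∧ dist Q R = dist R P)) ∧
    3.81 < sigma1 k A B C * perim A B C ∧ sigma1 k A B C * perim A B C < 3.883 := by
  obtain ⟨a, -, b, -, c, d, -⟩ := triangles_main k hk A B C hne h1 h2
  exact ⟨a, b, c, d⟩

end Pool.Agent.Results.MP_b1ddb4_an.TrianglePerimeter
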